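import Pool.Agent.W346.GP.Pack

set_option autoImplicit false
open Finset MeasureTheory ProbabilityTheory Filter Topology
open scoped ENNReal

namespace Pool.Agent.W346.GP
open Pool.Agent.W844.GP
open Pool.Agent.W844.VG (V stp nm)

variable {d : ℕ}

/-- `m` good vertices in a given finite set -/
theorem event_bound (ν : Measure ℝ) [IsProbabilityMeasure ν] (Z : Finset (V d)) (s : ℝ) (m : ℕ)
    (hm : 1 ≤ m) (B : ℝ) (hB : (Z.card : ℝ) * ν.real (Set.Ioi s) ≤ B) :
    law ν d {w | ∃ S ⊆ Z, S.card = m ∧ ∀ z ∈ S, s < w z} ≤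
      ENNReal.ofReal ((Real.exp 1 * B / m) ^ m) := by
  classical
  set p := ν.real (Set.Ioi s) with hp
  have hp0 : 0 ≤ p := measureReal_nonneg
  have hνp : ν (Set.Ioi s) = ENNReal.ofReal p := by
    rw [hp, Measure.real, ENNReal.ofReal_toReal (measure_ne_top _ _)]
  have hsub : {w : V d → ℝ | ∃ S ⊆ Z, S.card = m ∧ ∀ z ∈ S, s < w z} ⊆
      ⋃ S ∈ Z.powersetCard m, {w | ∀ z ∈ S.toList, w z ∈ Set.Ioi s} := by
    rintro w ⟨S, h1, h2, h3⟩
    refine Set.mem_biUnion (Finset.mem_powersetCard.2 ⟨h1, h2⟩) ?_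
    intro z hz
    exact h3 z (Finset.mem_toList.1 hz)
  have h1 : law ν d {w | ∃ S ⊆ Z, S.card = m ∧ ∀ z ∈ S, s < w z} ≤
      (Z.card.choose m : ℝ≥0∞) * ENNReal.ofReal p ^ m := by
    calc law ν d {w | ∃ S ⊆ Z, S.card = m ∧ ∀ z ∈ S, s < w z}
        ≤ law ν d (⋃ S ∈ Z.powersetCard m, {w | ∀ z ∈ S.toList, w z ∈ Set.Ioi s}) :=
          measure_mono hsub
      _ ≤ ∑ S ∈ Z.powersetCard m, law ν d {w | ∀ z ∈ S.toList, w z ∈ Set.Ioi s} :=
          measure_biUnion_finset_le _ _
      _ = ∑ _S ∈ Z.powersetCard m, ENNReal.ofReal p ^ m := by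
          refine Finset.sum_congr rfl fun S hS => ?_
          rw [law_all ν _ (Finset.nodup_toList S) _ measurableSet_Ioi, Finset.length_toList,
            (Finset.mem_powersetCard.1 hS).2, hνp]
      _ = (Z.card.choose m : ℝ≥0∞) * ENNReal.ofReal p ^ m := by
          rw [Finset.sum_const, Finset.card_powersetCard, nsmul_eq_mul]
  refine h1.trans ?_
  have h2 : (Z.card.choose m : ℝ≥0∞) * ENNReal.ofReal p ^ m =
      ENNReal.ofReal ((Z.card.choose m : ℝ) * p ^ m) := by
    rw [ENNReal.ofReal_mul (by positivity), ENNReal.ofReal_natCast, ENNReal.ofReal_pow hp0]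
  rw [h2]
  refine ENNReal.ofReal_le_ofReal ?_
  have hmpos : (0 : ℝ) < m := by exact_mod_cast hm
  have h3 : (Z.card.choose m : ℝ) ≤ (Z.card : ℝ) ^ m / (m.factorial : ℝ) :=
    Nat.choose_le_pow_div m Z.card
  have h4 : (m : ℝ) ^ m / (m.factorial : ℝ) ≤ Real.exp m :=
    Real.pow_div_factorial_le_exp (m : ℝ) (Nat.cast_nonneg m) m
  have hfac : (0 : ℝ) < (m.factorial : ℝ) := by exact_mod_cast Nat.factorial_pos m
  have hB0 : 0 ≤ B := le_trans (by positivity) hB
  calc (Z.card.choose m : ℝ) * p ^ m ≤ (Z.card : ℝ) ^ m / (m.factorial : ℝ) * p ^ m := by gcongr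
    _ = (Z.card * p) ^ m / (m.factorial : ℝ) := by rw [mul_pow]; ring
    _ ≤ B ^ m / (m.factorial : ℝ) := by gcongr
    _ = B ^ m / (m : ℝ) ^ m * ((m : ℝ) ^ m / (m.factorial : ℝ)) := by
        have : (m : ℝ) ^ m ≠ 0 := (pow_pos hmpos m).ne'
        field_simp
    _ ≤ B ^ m / (m : ℝ) ^ m * Real.exp m := by gcongr
    _ = (Real.exp 1 * B / m) ^ m := by
        rw [div_pow, mul_pow, ← Real.exp_nat_mul, mul_one]
        ring

/-- parametrisation of a path -/
theorem param : ∀ (l : List (V d)) (x : V d), (x :: l).IsChain adj →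
    ∃ f : ℕ → V d, f 0 = x ∧ (∀ t c, |f (t + 1) c - f t c| ≤ 1) ∧
      ∀ z ∈ l, ∃ t ≤ l.length, f t = z := by
  intro l
  induction l with
  | nil => intro x _; exact ⟨fun _ => x, rfl, by simp, by simp⟩
  | cons y l ih =>
    intro x h
    rw [List.isChain_cons_cons] at h
    obtain ⟨g, hg0, hg1, hg2⟩ := ih y h.2
    refine ⟨fun t => Nat.casesOn t x g, rfl, ?_, ?_⟩
    · intro t c
      rcases t with _ | t
      · show |g 0 c - x c| ≤ 1
        rw [hg0]
        have h3 : ∑ j, |y j - x j| = 1 := h.1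
        rw [← h3]
        exact Finset.single_le_sum (f := fun j => |y j - x j|) (fun j _ => abs_nonneg _)
          (Finset.mem_univ c)
      · exact hg1 t c
    · intro z hz
      rcases List.mem_cons.1 hz with h1 | h1
      · exact ⟨1, by simp, by show g 0 = z; rw [hg0, h1]⟩
      · obtain ⟨t, ht, htz⟩ := hg2 z h1
        exact ⟨t + 1, by simpa using ht, htz⟩

theorem lip (f : ℕ → V d) (hf : ∀ t c, |f (t + 1) c - f t c| ≤ 1) (t s : ℕ) (c : Fin d) :
    |f (t + s) c - f t c| ≤ s := by
  induction s with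
  | zero => simp
  | succ s ih =>
    have h1 := hf (t + s) c
    have h2 : f (t + (s + 1)) c - f t c = (f (t + s + 1) c - f (t + s) c) + (f (t + s) c - f t c) := by
      rw [← add_assoc]; ring
    rw [h2]
    refine (abs_add_le _ _).trans ?_
    push_cast
    linarith

theorem chain_map_range (R : V d → V d → Prop) (k : ℕ) : ∀ ζ : ℕ → V d,
    (∀ j, R (ζ j) (ζ (j + 1))) → (ζ 0 :: (List.range k).map fun j => ζ (j + 1)).IsChain R := by
  induction k with
  | zero => intro ζ _; simp
  | succ k ih =>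
    intro ζ h
    rw [List.range_succ_eq_map, List.map_cons, List.isChain_cons_cons, List.map_map]
    exact ⟨h 0, ih (fun j => ζ (j + 1)) fun j => h (j + 1)⟩

/-- the cube of side `3 ell` around the coarse point `u` -/
noncomputable def cub (ell : ℕ) (u : V d) : Finset (V d) :=
  Fintype.piFinset fun c => Ico ((ell : ℤ) * (u c - 1)) ((ell : ℤ) * (u c + 2))

theorem card_cub (ell : ℕ) (u : V d) : (cub ell u).card = (3 * ell) ^ d := by
  unfold cub
  rw [Fintype.card_piFinset]
  have : ∀ c : Fin d, (Ico ((ell : ℤ) * (u c - 1)) ((ell : ℤ) * (u c + 2))).card = 3 * ell := by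
    intro c
    rw [Int.card_Ico]
    have h1 : (ell : ℤ) * (u c + 2) - (ell : ℤ) * (u c - 1) = ((3 * ell : ℕ) : ℤ) := by
      push_cast; ring
    rw [h1, Int.toNat_natCast]
  rw [Finset.prod_congr rfl fun c _ => this c]
  simp

/-- covering by cubes -/
noncomputable def cov (ell : ℕ) (L : List (V d)) : Finset (V d) :=
  ((0 : V d) :: L).toFinset.biUnion (cub ell)

theorem card_cov (ell : ℕ) (L : List (V d)) :
    (cov ell L).card ≤ (L.length + 1) * (3 * ell) ^ d := by
  classical
  unfold cov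
  refine Finset.card_biUnion_le.trans ?_
  rw [Finset.sum_congr rfl fun u _ => card_cub ell u, Finset.sum_const, smul_eq_mul]
  refine Nat.mul_le_mul_right _ ?_
  have := List.toFinset_card_le ((0 : V d) :: L)
  simpa using this

theorem cover (ell : ℕ) (hell : 1 ≤ ell) (l : List (V d)) (hl : ((0 : V d) :: l).IsChain adj) :
    ∃ L ∈ pths (l.length / ell + 1) (0 : V d), ∀ z ∈ l, z ∈ cov ell L := by
  classical
  obtain ⟨f, hf0, hf1, hf2⟩ := param l 0 hl
  have hl1 : (0 : ℤ) < ell := by exact_mod_cast hell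
  let ζ : ℕ → V d := fun j c => f (j * ell) c / (ell : ℤ)
  have hζ : ∀ j c, (ell : ℤ) * ζ j c ≤ f (j * ell) c ∧ f (j * ell) c < (ell : ℤ) * ζ j c + ell := by
    intro j c
    have h1 := Int.mul_ediv_self_le (x := f (j * ell) c) (k := (ell : ℤ)) hl1.ne'
    have h2 := Int.lt_mul_ediv_self_add (x := f (j * ell) c) (k := (ell : ℤ)) hl1
    exact ⟨h1, h2⟩
  have hζ0 : ζ 0 = 0 := by
    funext c
    show f (0 * ell) c / (ell : ℤ) = 0
    rw [zero_mul, hf0]
    simp
  have hstep : ∀ j, nm (ζ (j + 1) - ζ j) ≤ 2 := by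
    intro j
    unfold nm
    refine Finset.sup_le fun c _ => ?_
    have h1 := hζ j c
    have h2 := hζ (j + 1) c
    have h3 := lip f hf1 (j * ell) ell c
    have h4 : j * ell + ell = (j + 1) * ell := by ring
    rw [h4, abs_le] at h3
    rw [Pi.sub_apply]
    have h5 : ζ (j + 1) c - ζ j c < 2 := by
      by_contra hc
      push Not at hc
      nlinarith [h1.1, h1.2, h2.1, h2.2, h3.1, h3.2]
    have h6 : -2 < ζ (j + 1) c - ζ j c := by
      by_contra hc
      push Not at hc
      nlinarith [h1.1, h1.2, h2.1, h2.2, h3.1, h3.2]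
    omega
  set k := l.length / ell + 1 with hk
  refine ⟨(List.range k).map fun j => ζ (j + 1), ?_, ?_⟩
  · have h1 := chain_map_range (fun a b : V d => nm (b - a) ≤ 2) k ζ hstep
    rw [hζ0] at h1
    have h2 := mem_pths _ _ h1
    rwa [List.length_map, List.length_range] at h2
  · intro z hz
    obtain ⟨t, ht, rfl⟩ := hf2 z hz
    unfold cov
    rw [Finset.mem_biUnion]
    refine ⟨ζ (t / ell), ?_, ?_⟩
    · rw [List.mem_toFinset, List.mem_cons]
      rcases Nat.eq_zero_or_pos (t / ell) with h | h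
      · left; rw [h, hζ0]
      · right
        rw [List.mem_map]
        refine ⟨t / ell - 1, ?_, ?_⟩
        · rw [List.mem_range]
          have : t / ell ≤ l.length / ell := Nat.div_le_div_right ht
          omega
        · have : t / ell - 1 + 1 = t / ell := by omega
          rw [this]
    · unfold cub
      rw [Fintype.mem_piFinset]
      intro c
      rw [Finset.mem_Ico]
      have h1 := hζ (t / ell) c
      have h2 := lip f hf1 (t / ell * ell) (t % ell) c
      have h3 : t / ell * ell + t % ell = t := by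
        rw [mul_comm]; exact Nat.div_add_mod t ell
      rw [h3, abs_le] at h2
      have h4 : (t % ell : ℕ) < ell := Nat.mod_lt _ hell
      have h5 : ((t % ell : ℕ) : ℤ) < ell := by exact_mod_cast h4
      constructor
      · nlinarith [h1.1, h1.2, h2.1, h2.2]
      · nlinarith [h1.1, h1.2, h2.1, h2.2]

theorem gg : S_G := by
  intro d hd
  refine ⟨2 * 6 ^ d * Real.exp 3 + 2 * d, by positivity, ?_⟩
  intro ν _ s n m hn hm
  classical
  set p := ν.real (Set.Ioi s) with hp
  have hp0 : 0 ≤ p := measureReal_nonneg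
  have hp1 : p ≤ 1 := measureReal_le_one
  have hνp : ν (Set.Ioi s) = ENNReal.ofReal p := by
    rw [hp, Measure.real, ENNReal.ofReal_toReal (measure_ne_top _ _)]
  set x := p ^ ((1 : ℝ) / d) with hx
  have hx0 : 0 ≤ x := Real.rpow_nonneg hp0 _
  have hdR : (0 : ℝ) < d := by exact_mod_cast hd
  have hxd : x ^ d = p := by
    rw [hx, ← Real.rpow_natCast, ← Real.rpow_mul hp0, one_div, inv_mul_cancel₀ hdR.ne',
      Real.rpow_one]
  set C := 2 * 6 ^ d * Real.exp 3 + 2 * d with hC
  have hCpos : 0 < C := by positivity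
  set M := (n : ℝ) * x + 1 with hM
  have hM1 : 1 ≤ M := by have : 0 ≤ (n : ℝ) * x := by positivity
                         linarith
  have hmpos : (0 : ℝ) < m := lt_of_lt_of_le (by positivity) hm
  have hm1 : 1 ≤ m := by
    have : 0 < m := by exact_mod_cast hmpos
    omega
  rcases hp0.eq_or_lt with hpz | hpp
  · -- no vertex is good
    have hnull : law ν d (⋃ z : V d, {w | ∀ z' ∈ [z], w z' ∈ Set.Ioi s}) = 0 := by
      rw [measure_iUnion_null_iff]
      intro z
      rw [law_all ν [z] (by simp) _ measurableSet_Ioi, hνp, ← hpz]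
      simp
    refine le_trans (le_of_eq ?_) (zero_le)
    refine measure_mono_null ?_ hnull
    rintro w ⟨l, _, _, S, hS, hSz⟩
    obtain ⟨z, hz⟩ := Finset.card_pos.1 (by omega : 0 < S.card)
    refine Set.mem_iUnion.2 ⟨z, ?_⟩
    intro z' hz'
    rw [List.mem_singleton.1 hz']
    exact (hSz z hz).2
  · have hxpos : 0 < x := Real.rpow_pos_of_pos hpp _
    have hx1 : x ≤ 1 := Real.rpow_le_one hp0 hp1 (by positivity)
    set ell := ⌈1 / x⌉₊ with hell
    have he1 : 1 / x ≤ ell := Nat.le_ceil _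
    have he2 : (ell : ℝ) < 1 / x + 1 := Nat.ceil_lt_add_one (by positivity)
    have h1x : 1 ≤ 1 / x := by rw [le_div_iff₀ hxpos]; linarith
    have hell1 : 1 ≤ ell := by
      have : (1 : ℝ) ≤ ell := h1x.trans he1
      exact_mod_cast this
    have hellx : (ell : ℝ) * x ≤ 2 := by
      have h1 : (ell : ℝ) * x ≤ (1 / x + 1) * x := by gcongr
      have h2 : (1 / x + 1) * x = 1 + x := by field_simp
      linarith
    set k := n / ell + 1 with hk
    have hkM : (k : ℝ) ≤ M := by
      have h1 : ((n / ell : ℕ) : ℝ) ≤ (n : ℝ) / ell := Nat.cast_div_le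
      have h2 : (n : ℝ) / ell ≤ n * x := by
        rw [div_le_iff₀ (by exact_mod_cast hell1)]
        have h3 : 1 ≤ (ell : ℝ) * x := by
          rw [div_le_iff₀ hxpos] at he1; exact he1
        have h4 : (0 : ℝ) ≤ n := Nat.cast_nonneg n
        nlinarith
      rw [hk, hM]
      push_cast
      linarith
    have hk1 : (1 : ℝ) ≤ k := by rw [hk]; push_cast; have : (0:ℝ) ≤ ((n / ell : ℕ) : ℝ) := Nat.cast_nonneg _
                                 linarith
    have hB : ∀ L ∈ pths k (0 : V d), L.length = k → ((cov ell L).card : ℝ) * p ≤ 2 * 6 ^ d * M := by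
      intro L _ hL
      have h1 : ((cov ell L).card : ℝ) ≤ (k + 1) * (3 * ell) ^ d := by
        have := card_cov ell L
        rw [hL] at this
        exact_mod_cast this
      calc ((cov ell L).card : ℝ) * p ≤ ((k + 1) * (3 * ell) ^ d) * x ^ d := by
            rw [hxd]; gcongr
        _ = (k + 1) * 3 ^ d * (ell * x) ^ d := by rw [mul_pow, mul_pow]; ring
        _ ≤ (k + 1) * 3 ^ d * 2 ^ d := by gcongr
        _ = (k + 1) * 6 ^ d := by rw [mul_assoc, ← mul_pow]; norm_num
        _ ≤ (2 * M) * 6 ^ d := by gcongr; linarith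
        _ = 2 * 6 ^ d * M := by ring
    have hlen : ∀ (j : ℕ) (y : V d), ∀ L ∈ pths j y, L.length = j := by
      intro j
      induction j with
      | zero => intro y L hL; rw [pths, Finset.mem_singleton] at hL; rw [hL]; rfl
      | succ j ih =>
        intro y L hL
        rw [pths, Finset.mem_biUnion] at hL
        obtain ⟨a, _, ha⟩ := hL
        obtain ⟨L', hL', rfl⟩ := Finset.mem_image.1 ha
        rw [List.length_cons, ih _ L' hL']
    have hsub : {w : V d → ℝ | ∃ l : List (V d), l.length = n ∧ IsP (0 :: l) ∧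
        ∃ S : Finset (V d), S.card = m ∧ ∀ z ∈ S, z ∈ l ∧ s < w z} ⊆
        ⋃ L ∈ pths k (0 : V d), {w | ∃ S ⊆ cov ell L, S.card = m ∧ ∀ z ∈ S, s < w z} := by
      rintro w ⟨l, hl1, hl2, S, hS, hSz⟩
      obtain ⟨L, hL1, hL2⟩ := cover ell hell1 l hl2.1
      rw [hl1] at hL1
      refine Set.mem_biUnion hL1 ⟨S, fun z hz => hL2 z (hSz z hz).1, hS, fun z hz => (hSz z hz).2⟩
    have hone : ∀ L ∈ pths k (0 : V d),
        law ν d {w | ∃ S ⊆ cov ell L, S.card = m ∧ ∀ z ∈ S, s < w z} ≤
          ENNReal.ofReal (Real.exp (-(2 * m))) := by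
      intro L hL
      refine (event_bound ν (cov ell L) s m hm1 _ (hB L hL (hlen k 0 L hL))).trans ?_
      refine ENNReal.ofReal_le_ofReal ?_
      have h1 : Real.exp 1 * (2 * 6 ^ d * M) / m ≤ Real.exp (-2) := by
        rw [div_le_iff₀ hmpos]
        have h2 : Real.exp (-2) * (C * M) ≤ Real.exp (-2) * m := by gcongr
        refine le_trans ?_ h2
        have h3 : Real.exp (-2) * (2 * 6 ^ d * Real.exp 3 * M) ≤ Real.exp (-2) * (C * M) := by
          have : 2 * 6 ^ d * Real.exp 3 ≤ C := by rw [hC]; linarith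
          gcongr
        refine le_trans (le_of_eq ?_) h3
        have h4 : Real.exp 1 = Real.exp (-2) * Real.exp 3 := by
          rw [← Real.exp_add]; norm_num
        rw [h4]; ring
      calc (Real.exp 1 * (2 * 6 ^ d * M) / m) ^ m ≤ Real.exp (-2) ^ m := by
            gcongr
        _ = Real.exp (-(2 * m)) := by
            rw [← Real.exp_nat_mul]; congr 1; ring
    have hcount : ((pths k (0 : V d)).card : ℝ≥0∞) ≤ ENNReal.ofReal (Real.exp m) := by
      have h1 : ((pths k (0 : V d)).card : ℝ) ≤ Real.exp m := by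
        have h2 : ((pths k (0 : V d)).card : ℝ) ≤ ((5 : ℝ) ^ d) ^ k := by
          exact_mod_cast card_pths k (0 : V d)
        refine h2.trans ?_
        have h3 : (5 : ℝ) ≤ Real.exp 2 := by
          have h4 : (2.7 : ℝ) ≤ Real.exp 1 := by
            have := Real.exp_one_gt_d9; linarith
          have h5 : Real.exp 2 = Real.exp 1 * Real.exp 1 := by
            rw [← Real.exp_add]; norm_num
          rw [h5]; nlinarith
        calc ((5 : ℝ) ^ d) ^ k ≤ ((Real.exp 2) ^ d) ^ k := by gcongr
          _ = Real.exp (2 * d * k) := by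
              rw [← Real.exp_nat_mul, ← Real.exp_nat_mul]; congr 1; ring
          _ ≤ Real.exp m := by
              refine Real.exp_le_exp.2 ?_
              refine le_trans ?_ hm
              have h6 : 2 * (d : ℝ) ≤ C := by
                rw [hC]
                have : 0 ≤ 2 * 6 ^ d * Real.exp 3 := by positivity
                linarith
              gcongr
      calc ((pths k (0 : V d)).card : ℝ≥0∞) = ENNReal.ofReal ((pths k (0 : V d)).card : ℝ) := by
            rw [ENNReal.ofReal_natCast]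
        _ ≤ _ := ENNReal.ofReal_le_ofReal h1
    calc law ν d {w | ∃ l : List (V d), l.length = n ∧ IsP (0 :: l) ∧
          ∃ S : Finset (V d), S.card = m ∧ ∀ z ∈ S, z ∈ l ∧ s < w z}
        ≤ law ν d (⋃ L ∈ pths k (0 : V d),
            {w | ∃ S ⊆ cov ell L, S.card = m ∧ ∀ z ∈ S, s < w z}) := measure_mono hsub
      _ ≤ ∑ L ∈ pths k (0 : V d),
            law ν d {w | ∃ S ⊆ cov ell L, S.card = m ∧ ∀ z ∈ S, s < w z} :=
          measure_biUnion_finset_le _ _
      _ ≤ ∑ _L ∈ pths k (0 : V d), ENNReal.ofReal (Real.exp (-(2 * m))) :=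
          Finset.sum_le_sum hone
      _ = (pths k (0 : V d)).card * ENNReal.ofReal (Real.exp (-(2 * m))) := by
          rw [Finset.sum_const, nsmul_eq_mul]
      _ ≤ ENNReal.ofReal (Real.exp m) * ENNReal.ofReal (Real.exp (-(2 * m))) := by gcongr
      _ = ENNReal.ofReal (Real.exp (-m)) := by
          rw [← ENNReal.ofReal_mul (Real.exp_pos _).le, ← Real.exp_add]
          congr 2
          ring

end Pool.Agent.W346.GP
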