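import Pool.Agent.W346.GP.Tail

set_option autoImplicit false
open Finset MeasureTheory ProbabilityTheory Filter Topology
open scoped ENNReal

namespace Pool.Agent.W346.GP
open Pool.Agent.W844.GP
open Pool.Agent.W844.VG (V stp nm)

variable {d : ℕ}

theorem meas_wt (l : List (V d)) : Measurable fun w : V d → ℝ => wt w l := by
  induction l with
  | nil => simpa [wt] using measurable_const
  | cons x l ih =>
    have h1 : (fun w : V d → ℝ => wt w (x :: l)) = fun w => w x + wt w l := by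
      funext w; simp [wt]
    rw [h1]
    exact (measurable_pi_apply x).add ih

theorem meas_sh (a : V d) : Measurable (sh a : (V d → ℝ) → (V d → ℝ)) :=
  measurable_pi_lambda _ fun x => measurable_pi_apply (x + a)

/-- translation invariance of the law -/
theorem law_sh (ν : Measure ℝ) [IsProbabilityMeasure ν] (a : V d) :
    (law ν d).map (sh a) = law ν d := by
  classical
  unfold law
  refine Measure.eq_infinitePi _ ?_
  intro s t ht
  rw [Measure.map_apply (meas_sh a) (MeasurableSet.pi s.countable_toSet fun i _ => ht i)]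
  have h1 : (sh a) ⁻¹' (Set.pi (s : Set (V d)) t) =
      Set.pi ((s.image fun x => x + a : Finset (V d)) : Set (V d)) fun x => t (x - a) := by
    ext w
    simp only [Set.mem_preimage, Set.mem_pi, Finset.mem_coe, Finset.mem_image, sh]
    constructor
    · rintro h _ ⟨x, hx, rfl⟩
      rw [add_sub_cancel_right]
      exact h x hx
    · intro h x hx
      have := h (x + a) ⟨x, hx, rfl⟩
      rwa [add_sub_cancel_right] at this
  rw [h1, Measure.infinitePi_pi _ (fun x _ => ht (x - a)), Finset.prod_image]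
  · refine Finset.prod_congr rfl fun x _ => ?_
    rw [add_sub_cancel_right]
  · intro x _ y _ h
    exact add_right_cancel h

theorem law_pre_sh (ν : Measure ℝ) [IsProbabilityMeasure ν] (a : V d) (A : Set (V d → ℝ))
    (hA : MeasurableSet A) : law ν d {w | sh a w ∈ A} = law ν d A := by
  conv_rhs => rw [← law_sh ν a, Measure.map_apply (meas_sh a) hA]
  rfl

theorem wt_sh (a : V d) (w : V d → ℝ) (l : List (V d)) :
    wt (sh a w) l = wt w (l.map fun x => x + a) := by
  unfold wt sh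
  rw [List.map_map]
  rfl

theorem adj_add (a x y : V d) : adj (x + a) (y + a) ↔ adj x y := by
  unfold adj
  simp

theorem isP_add (a : V d) (l : List (V d)) (h : IsP l) : IsP (l.map fun x => x + a) := by
  refine ⟨?_, h.2.map (fun x y hxy => add_right_cancel hxy)⟩
  rw [List.isChain_map]
  exact h.1.imp fun x y hxy => (adj_add a x y).2 hxy

theorem WB_add (i : Fin d) (a : V d) (l : List (V d)) (x y : V d) (h : WB i l x y) :
    WB i (l.map fun x => x + a) (x + a) (y + a) := by
  obtain ⟨h1, h2, h3, h4⟩ := h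
  refine ⟨isP_add a l h1, ?_, ?_, ?_⟩
  · rw [List.head?_map, h2]; rfl
  · rw [List.getLast?_map, h3]; rfl
  · intro z hz
    obtain ⟨z', hz', rfl⟩ := List.mem_map.1 hz
    have := h4 z' hz'
    simp only [Pi.add_apply]
    constructor <;> linarith [this.1, this.2]

/-- coordinates change slowly -/
theorem coord_le (i : Fin d) : ∀ (l : List (V d)) (x y : V d),
    (x :: l).IsChain adj → (x :: l).getLast? = some y → y i - x i ≤ l.length := by
  intro l
  induction l with
  | nil =>
    intro x y _ h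
    simp only [List.getLast?_singleton, Option.some.injEq] at h
    rw [h]; simp
  | cons z l ih =>
    intro x y hc h
    rw [List.isChain_cons_cons] at hc
    rw [List.getLast?_cons_cons] at h
    have h1 := ih z y hc.2 h
    have h2 : |z i - x i| ≤ 1 := by
      have h3 : ∑ j, |z j - x j| = 1 := hc.1
      rw [← h3]
      exact Finset.single_le_sum (f := fun j => |z j - x j|) (fun j _ => abs_nonneg _)
        (Finset.mem_univ i)
    have h4 := (abs_le.1 h2).2
    rw [List.length_cons]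
    push_cast
    linarith

/-- the event that there is a weak bridge of length about `2^j R` in the cube of side `M` -/
def AA (i : Fin d) (M R j : ℕ) : Set (V d → ℝ) :=
  {w | ∃ l : List (V d), (∃ x y : V d, WB i l x y) ∧ (∀ z ∈ l, z ∈ Cube 0 M) ∧
    2 ^ j * R ≤ l.length ∧ l.length < 2 ^ (j + 1) * R ∧ 0 ≤ wt w l}

theorem meas_AA (i : Fin d) (M R j : ℕ) : MeasurableSet (AA i M R j) := by
  have h1 : AA i M R j = ⋃ l ∈ {l : List (V d) | (∃ x y : V d, WB i l x y) ∧
      (∀ z ∈ l, z ∈ Cube 0 M) ∧ 2 ^ j * R ≤ l.length ∧ l.length < 2 ^ (j + 1) * R},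
      {w : V d → ℝ | 0 ≤ wt w l} := by
    ext w
    rw [Set.mem_iUnion₂]
    constructor
    · rintro ⟨l, h1, h2, h3, h4, h5⟩
      exact ⟨l, ⟨h1, h2, h3, h4⟩, h5⟩
    · rintro ⟨l, ⟨h1, h2, h3, h4⟩, h5⟩
      exact ⟨l, h1, h2, h3, h4, h5⟩
  rw [h1]
  exact MeasurableSet.biUnion (Set.to_countable _) fun l _ =>
    measurableSet_le measurable_const (meas_wt l)

theorem Exc_sub (w : V d → ℝ) (i : Fin d) (K R : ℕ) (hR : 1 ≤ R)
    (h : Exc w i (2 * K * R) R) : ∃ j, w ∈ AA i (2 * K * R) R j := by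
  obtain ⟨l, x, y, h1, h2, h3, h4⟩ := h
  have hlen : R ≤ l.length := by
    rcases l with _ | ⟨x', l⟩
    · have := h1.2.1; simp at this
    · have hx : x' = x := by have := h1.2.1; simpa using this
      subst hx
      have h5 := coord_le i l x' y h1.1.1 h1.2.2.1
      rw [List.length_cons]
      have h6 : (R : ℤ) ≤ (l.length : ℤ) := by linarith
      have h7 : R ≤ l.length := by exact_mod_cast h6
      omega
  have hq : l.length / R ≠ 0 := by
    have : 0 < l.length / R := Nat.div_pos hlen hR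
    omega
  refine ⟨Nat.log 2 (l.length / R), l, ⟨x, y, h1⟩, h2, ?_, ?_, h4.le⟩
  · have h5 := Nat.pow_log_le_self 2 hq
    calc 2 ^ Nat.log 2 (l.length / R) * R ≤ (l.length / R) * R := Nat.mul_le_mul_right _ h5
      _ ≤ l.length := Nat.div_mul_le_self _ _
  · have h5 := Nat.lt_pow_succ_log_self (b := 2) (by norm_num) (l.length / R)
    rw [Nat.div_lt_iff_lt_mul hR] at h5
    exact h5

/-- many disjoint translates -/
theorem key_ineq (hI : S_INDK) (ν : Measure ℝ) [IsProbabilityMeasure ν] (i : Fin d) (K R j : ℕ)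
    : 1 ≤ law ν d {w | EE w i (2 * K) (2 ^ j * R)} +
      (1 - law ν d (AA i (2 * K * R) R j)) ^ ((2 ^ j) ^ d) := by
  classical
  let a : (Fin d → ℕ) → V d := fun v c => ((2 * K * R * v c : ℕ) : ℤ)
  let s : Finset (Fin d → ℕ) := Fintype.piFinset fun _ => range (2 ^ j)
  have hs : s.card = (2 ^ j) ^ d := by simp [s]
  let E : (Fin d → ℕ) → Set (V d → ℝ) := fun v => {w | sh (a v) w ∈ AA i (2 * K * R) R j}ᶜ
  have hEm : ∀ v, MeasurableSet (E v) := fun v => (meas_sh (a v) (meas_AA i _ R j)).compl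
  have hdep : ∀ v ∈ s, DependsOn (fun w => w ∈ E v) (Cube (a v) (2 * K * R)) := by
    intro v _ w w' hww
    have key : ∀ w w' : V d → ℝ, (∀ z ∈ Cube (a v) (2 * K * R), w z = w' z) →
        sh (a v) w ∈ AA i (2 * K * R) R j → sh (a v) w' ∈ AA i (2 * K * R) R j := by
      rintro w w' hw ⟨l, h1, h2, h3, h4, h5⟩
      refine ⟨l, h1, h2, h3, h4, ?_⟩
      have h6 : wt (sh (a v) w') l = wt (sh (a v) w) l := by
        unfold wt
        congr 1
        refine List.map_congr_left fun z hz => ?_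
        refine (hw (z + a v) ?_).symm
        intro c
        have := h2 z hz c
        simp only [Pi.add_apply]
        simp only [Pi.zero_apply, zero_add] at this
        constructor <;> linarith [this.1, this.2]
      rw [h6]; exact h5
    refine propext ⟨fun h h' => h (key w' w (fun z hz => (hww z hz).symm) h'),
      fun h h' => h (key w w' (fun z hz => hww z hz) h')⟩
  have hdis : ∀ v ∈ s, ∀ v' ∈ s, v ≠ v' →
      Disjoint (Cube (a v) (2 * K * R)) (Cube (a v') (2 * K * R)) := by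
    intro v _ v' _ hne
    obtain ⟨c, hc⟩ := Function.ne_iff.1 hne
    rw [Set.disjoint_left]
    intro z hz hz'
    have h1 := hz c
    have h2 := hz' c
    have h3 : a v c = ((2 * K * R : ℕ) : ℤ) * (v c : ℤ) := by simp [a]
    have h4 : a v' c = ((2 * K * R : ℕ) : ℤ) * (v' c : ℤ) := by simp [a]
    rw [h3] at h1
    rw [h4] at h2
    have hM : (0 : ℤ) ≤ ((2 * K * R : ℕ) : ℤ) := Int.natCast_nonneg _
    rcases lt_or_gt_of_ne hc with h | h
    · have h5 : (v c : ℤ) + 1 ≤ (v' c : ℤ) := by exact_mod_cast h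
      nlinarith [h1.1, h1.2, h2.1, h2.2]
    · have h5 : (v' c : ℤ) + 1 ≤ (v c : ℤ) := by exact_mod_cast h
      nlinarith [h1.1, h1.2, h2.1, h2.2]
  have hind := hI d ν (Fin d → ℕ) s E (fun v => Cube (a v) (2 * K * R)) (fun v _ => hEm v) hdep hdis
  have hprob : ∀ v, law ν d (E v) = 1 - law ν d (AA i (2 * K * R) R j) := by
    intro v
    rw [← law_pre_sh ν (a v) _ (meas_AA i _ R j)]
    exact prob_compl_eq_one_sub (meas_sh (a v) (meas_AA i _ R j))
  rw [Finset.prod_congr rfl fun v _ => hprob v, Finset.prod_const, hs] at hind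
  have hsub : {w : V d → ℝ | EE w i (2 * K) (2 ^ j * R)}ᶜ ⊆ ⋂ v ∈ s, E v := by
    intro w hw
    rw [Set.mem_iInter₂]
    intro v hv hmem
    apply hw
    obtain ⟨l, ⟨x, y, h1⟩, h2, h3, h4, h5⟩ := hmem
    refine ⟨l.map fun z => z + a v, x + a v, y + a v, WB_add i (a v) l x y h1, ?_, ?_, ?_, ?_⟩
    · intro z hz c
      obtain ⟨z', hz', rfl⟩ := List.mem_map.1 hz
      have h6 := h2 z' hz' c
      have h7 : v c < 2 ^ j := Finset.mem_range.1 ((Fintype.mem_piFinset.1 hv) c)
      have h8 : a v c = ((2 * K * R : ℕ) : ℤ) * (v c : ℤ) := by simp [a]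
      have h9 : (v c : ℤ) + 1 ≤ 2 ^ j := by exact_mod_cast h7
      simp only [Pi.add_apply, Pi.zero_apply, zero_add] at h6 ⊢
      have hM : (0 : ℤ) ≤ ((2 * K * R : ℕ) : ℤ) := Int.natCast_nonneg _
      have h10 : ((2 * K * (2 ^ j * R) : ℕ) : ℤ) = ((2 * K * R : ℕ) : ℤ) * 2 ^ j := by
        push_cast; ring
      have hv0 : (0 : ℤ) ≤ (v c : ℤ) := Int.natCast_nonneg _
      rw [h8, h10]
      constructor
      · nlinarith [h6.1, mul_nonneg hM hv0]
      · nlinarith [h6.2, mul_le_mul_of_nonneg_left h9 hM]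
    · rw [List.length_map]; exact h3
    · rw [List.length_map, ← mul_assoc, ← pow_succ']; exact h4
    · rw [← wt_sh]; exact h5
  calc (1 : ℝ≥0∞) = law ν d Set.univ := measure_univ.symm
    _ = law ν d ({w | EE w i (2 * K) (2 ^ j * R)} ∪ {w | EE w i (2 * K) (2 ^ j * R)}ᶜ) := by
        rw [Set.union_compl_self]
    _ ≤ law ν d {w | EE w i (2 * K) (2 ^ j * R)} +
        law ν d {w | EE w i (2 * K) (2 ^ j * R)}ᶜ := measure_union_le _ _
    _ ≤ _ := by
        rw [← hind]
        exact add_le_add le_rfl (measure_mono hsub)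

/-- elementary inequality -/
theorem real_ineq (q e ε : ℝ) (N : ℕ) (hq0 : 0 ≤ q) (hq1 : q ≤ 1) (he : e ≤ ε)
    (hε1 : ε ≤ 1 / 2) (hε0 : 0 ≤ ε) (h : 1 ≤ e + (1 - q) ^ N) : N * q ≤ 2 * ε := by
  have h1 : (1 - q) ^ N * (1 + N * q) ≤ 1 := by
    have h2 : 1 + (N : ℝ) * q ≤ (1 + q) ^ N := one_add_mul_le_pow (by linarith) N
    calc (1 - q) ^ N * (1 + N * q) ≤ (1 - q) ^ N * (1 + q) ^ N := by
          have : 0 ≤ (1 - q) ^ N := pow_nonneg (by linarith) N
          gcongr
      _ = (1 - q ^ 2) ^ N := by rw [← mul_pow]; ring_nf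
      _ ≤ 1 := pow_le_one₀ (by nlinarith) (by nlinarith)
  have h3 : 1 - ε ≤ (1 - q) ^ N := by linarith
  have h4 : (1 - ε) * (1 + N * q) ≤ 1 := by
    have : 0 ≤ 1 + (N : ℝ) * q := by positivity
    nlinarith
  have h5 : 0 ≤ (N : ℝ) * q := by positivity
  nlinarith

theorem pack (hI : S_INDK) : S_PACK := by
  intro d ν _ i hEE K
  rw [ENNReal.tendsto_atTop_zero]
  intro ε' hε'
  obtain ⟨r, hr0, hr1, hr2⟩ := ENNReal.lt_iff_exists_real_btwn.1 hε'
  have hrpos : 0 < r := by
    by_contra hc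
    rw [ENNReal.ofReal_of_nonpos (not_lt.1 hc)] at hr1
    exact lt_irrefl _ hr1
  set ε : ℝ := min (1 / 2) (r / 4) with hε
  have hεpos : 0 < ε := lt_min (by norm_num) (by linarith)
  have hε1 : ε ≤ 1 / 2 := min_le_left _ _
  have hε2 : 4 * ε ≤ r := by have := min_le_right (1 / 2) (r / 4); linarith
  obtain ⟨R0, hR0⟩ := (ENNReal.tendsto_atTop_zero.1 (hEE (2 * K))) (ENNReal.ofReal ε)
    (ENNReal.ofReal_pos.2 hεpos)
  have hd : 1 ≤ d := by have := i.isLt; omega
  refine ⟨max R0 1, fun R hR => ?_⟩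
  have hR1 : 1 ≤ R := (le_max_right _ _).trans hR
  have hRR0 : R0 ≤ R := (le_max_left _ _).trans hR
  have hq : ∀ j, law ν d (AA i (2 * K * R) R j) ≤ ENNReal.ofReal (2 * ε) * (2⁻¹ : ℝ≥0∞) ^ j := by
    intro j
    have h1 := key_ineq hI ν i K R j
    have h2 : law ν d {w | EE w i (2 * K) (2 ^ j * R)} ≤ ENNReal.ofReal ε := by
      refine hR0 _ ?_
      refine hRR0.trans ?_
      exact Nat.le_mul_of_pos_left _ (by positivity)
    set q := law ν d (AA i (2 * K * R) R j) with hqdef
    have hq1 : q ≤ 1 := prob_le_one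
    have hqt : q ≠ ⊤ := ne_top_of_le_ne_top ENNReal.one_ne_top hq1
    have hq' : q.toReal ≤ 1 := by
      have := ENNReal.toReal_mono ENNReal.one_ne_top hq1
      simpa using this
    have h3 : 1 ≤ ε + (1 - q.toReal) ^ ((2 ^ j) ^ d) := by
      have h4 : (1 : ℝ≥0∞) ≤ ENNReal.ofReal ε + ENNReal.ofReal ((1 - q.toReal) ^ ((2 ^ j) ^ d)) := by
        refine h1.trans (add_le_add h2 ?_)
        rw [ENNReal.ofReal_pow (by linarith), ENNReal.ofReal_sub _ ENNReal.toReal_nonneg,
          ENNReal.ofReal_toReal hqt, ENNReal.ofReal_one]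
      rw [← ENNReal.ofReal_add hεpos.le (pow_nonneg (by linarith) _), ← ENNReal.ofReal_one] at h4
      exact (ENNReal.ofReal_le_ofReal_iff (add_nonneg hεpos.le
        (pow_nonneg (by linarith) _))).1 h4
    have h5 := real_ineq q.toReal ε ε ((2 ^ j) ^ d) ENNReal.toReal_nonneg hq' le_rfl hε1 hεpos.le h3
    have h6 : (2 : ℝ) ^ j ≤ (((2 ^ j) ^ d : ℕ) : ℝ) := by
      push_cast
      calc (2 : ℝ) ^ j = ((2 : ℝ) ^ j) ^ 1 := (pow_one _).symm
        _ ≤ ((2 : ℝ) ^ j) ^ d := pow_le_pow_right₀ (one_le_pow₀ (by norm_num)) hd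
    have h7 : q.toReal ≤ 2 * ε * (1 / 2) ^ j := by
      have h8 : (2 : ℝ) ^ j * q.toReal ≤ 2 * ε := by
        refine le_trans ?_ h5
        have := ENNReal.toReal_nonneg (a := q)
        gcongr
      have h9 : (0 : ℝ) < 2 ^ j := by positivity
      rw [one_div, inv_pow]
      rw [← div_eq_mul_inv, le_div_iff₀ h9]
      linarith
    calc q = ENNReal.ofReal q.toReal := (ENNReal.ofReal_toReal hqt).symm
      _ ≤ ENNReal.ofReal (2 * ε * (1 / 2) ^ j) := ENNReal.ofReal_le_ofReal h7
      _ = ENNReal.ofReal (2 * ε) * (2⁻¹ : ℝ≥0∞) ^ j := by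
          rw [ENNReal.ofReal_mul (by positivity), ENNReal.ofReal_pow (by norm_num)]
          congr 2
          rw [one_div, ENNReal.ofReal_inv_of_pos (by norm_num)]
          norm_num
  calc law ν d {w | Exc w i (2 * K * R) R} ≤ law ν d (⋃ j, AA i (2 * K * R) R j) := by
        refine measure_mono fun w hw => ?_
        obtain ⟨j, hj⟩ := Exc_sub w i K R hR1 hw
        exact Set.mem_iUnion.2 ⟨j, hj⟩
    _ ≤ ∑' j, law ν d (AA i (2 * K * R) R j) := measure_iUnion_le _
    _ ≤ ∑' j, ENNReal.ofReal (2 * ε) * (2⁻¹ : ℝ≥0∞) ^ j := ENNReal.tsum_le_tsum hq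
    _ = ENNReal.ofReal (2 * ε) * 2 := by
        rw [ENNReal.tsum_mul_left, ENNReal.tsum_geometric, ENNReal.one_sub_inv_two, inv_inv]
    _ = ENNReal.ofReal (4 * ε) := by
        rw [show (2 : ℝ≥0∞) = ENNReal.ofReal 2 by norm_num, ← ENNReal.ofReal_mul (by positivity)]
        congr 1
        ring
    _ ≤ ENNReal.ofReal r := ENNReal.ofReal_le_ofReal hε2
    _ ≤ ε' := hr2.le

end Pool.Agent.W346.GP
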