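import Pool.Agent.W844.GP.Defs

set_option autoImplicit false
open Finset MeasureTheory ProbabilityTheory Filter Topology
open scoped ENNReal

namespace Pool.Agent.W346.GP
open Pool.Agent.W844.GP
open Pool.Agent.W844.VG (V stp nm)

variable {d : ℕ}

instance (ν : Measure ℝ) [IsProbabilityMeasure ν] (d : ℕ) : IsProbabilityMeasure (law ν d) := by
  unfold law; infer_instance

/-- all the vertices of a list without repetitions are in `A` -/
theorem law_all (ν : Measure ℝ) [IsProbabilityMeasure ν] (l : List (V d)) (hl : l.Nodup)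
    (A : Set ℝ) (hA : MeasurableSet A) :
    law ν d {w | ∀ z ∈ l, w z ∈ A} = ν A ^ l.length := by
  classical
  have h1 : {w : V d → ℝ | ∀ z ∈ l, w z ∈ A} = Set.pi (l.toFinset : Set (V d)) fun _ => A := by
    ext w
    simp [Set.mem_pi]
  rw [h1, law, Measure.infinitePi_pi _ (fun _ _ => hA), Finset.prod_const,
    List.toFinset_card_of_nodup hl]

/-- steps of sup-norm at most `2` -/
noncomputable def steps (d : ℕ) : Finset (V d) := Fintype.piFinset fun _ => Icc (-2 : ℤ) 2

theorem card_steps (d : ℕ) : (steps d).card = 5 ^ d := by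
  simp [steps]

theorem mem_steps (x : V d) : x ∈ steps d ↔ nm x ≤ 2 := by
  unfold steps nm
  rw [Fintype.mem_piFinset, Finset.sup_le_iff]
  simp only [Finset.mem_univ, true_imp_iff, Finset.mem_Icc]
  refine forall_congr' fun i => ?_
  omega

/-- the lists of length `m` with small steps, starting next to `x` -/
noncomputable def pths : ℕ → V d → Finset (List (V d))
  | 0, _ => {[]}
  | (m + 1), x => (steps d).biUnion fun s => (pths m (x + s)).image fun l => (x + s) :: l

theorem card_pths (m : ℕ) : ∀ x : V d, (pths m x).card ≤ (5 ^ d) ^ m := by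
  induction m with
  | zero => intro x; simp [pths]
  | succ m ih =>
    intro x
    rw [pths]
    refine Finset.card_biUnion_le.trans ?_
    refine (Finset.sum_le_sum fun s _ => Finset.card_image_le.trans (ih (x + s))).trans ?_
    rw [Finset.sum_const, card_steps, smul_eq_mul, pow_succ, mul_comm]

theorem mem_pths : ∀ (l : List (V d)) (x : V d),
    (x :: l).IsChain (fun a b => nm (b - a) ≤ 2) → l ∈ pths l.length x := by
  intro l
  induction l with
  | nil => intro x _; simp [pths]
  | cons y l ih =>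
    intro x h
    rw [List.isChain_cons_cons] at h
    rw [List.length_cons, pths, Finset.mem_biUnion]
    refine ⟨y - x, (mem_steps _).2 h.1, ?_⟩
    rw [Finset.mem_image]
    refine ⟨l, ?_, ?_⟩
    · have := ih y h.2
      rwa [add_sub_cancel]
    · rw [add_sub_cancel]

theorem nm_add (x y : V d) : nm (x + y) ≤ nm x + nm y := by
  unfold nm
  refine Finset.sup_le fun i _ => ?_
  refine (Int.natAbs_add_le _ _).trans (add_le_add ?_ ?_)
  · exact Finset.le_sup (f := fun i => (x i).natAbs) (Finset.mem_univ i)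
  · exact Finset.le_sup (f := fun i => (y i).natAbs) (Finset.mem_univ i)

theorem nm_zero : nm (0 : V d) = 0 := by
  unfold nm
  refine Nat.le_zero.1 (Finset.sup_le fun i _ => ?_)
  simp

/-- a chain of small steps does not go far -/
theorem chain_far : ∀ (l : List (V d)) (x y : V d),
    (x :: l).IsChain (fun a b => nm (b - a) ≤ 2) → (x :: l).getLast? = some y →
    nm (y - x) ≤ 2 * l.length := by
  intro l
  induction l with
  | nil =>
    intro x y _ h
    simp only [List.getLast?_singleton, Option.some.injEq] at h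
    rw [h, sub_self, nm_zero]
    exact Nat.zero_le _
  | cons z l ih =>
    intro x y hc h
    rw [List.isChain_cons_cons] at hc
    rw [List.getLast?_cons_cons] at h
    have h1 := ih z y hc.2 h
    have h2 : y - x = (y - z) + (z - x) := by abel
    rw [h2, List.length_cons]
    have := nm_add (y - z) (z - x)
    have := hc.1
    omega

theorem chain_pre {α : Type*} {R : α → α → Prop} {l₁ l : List α} (h : l.IsChain R)
    (h' : l₁ <+: l) : l₁.IsChain R := by
  obtain ⟨t, rfl⟩ := h'
  exact h.left_of_append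

/-- loop erasure -/
theorem extract (Z : Set (V d)) (x y : V d)
    (h : Relation.ReflTransGen (fun a b => b ∈ Z ∧ nm (b - a) ≤ 2) x y) :
    ∃ l : List (V d), (x :: l).IsChain (fun a b => nm (b - a) ≤ 2) ∧ (x :: l).Nodup ∧
      (∀ z ∈ l, z ∈ Z) ∧ (x :: l).getLast? = some y := by
  classical
  induction h with
  | refl => exact ⟨[], by simp, by simp, by simp, by simp⟩
  | @tail y y' _ hyy ih =>
    obtain ⟨l, h1, h2, h3, h4⟩ := ih
    by_cases hy : y' ∈ x :: l
    · obtain ⟨s, t, hst⟩ := List.append_of_mem hy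
      rcases s with _ | ⟨a, s⟩
      · rw [List.nil_append, List.cons.injEq] at hst
        refine ⟨[], by simp, by simp, by simp, ?_⟩
        rw [hst.1]; simp
      · rw [List.cons_append, List.cons.injEq] at hst
        obtain ⟨rfl, hl⟩ := hst
        have hsub : (x :: (s ++ [y'])) <+: (x :: l) := by
          rw [hl]
          refine ⟨t, ?_⟩
          simp
        refine ⟨s ++ [y'], chain_pre h1 hsub, h2.sublist hsub.sublist, ?_, ?_⟩
        · intro z hz
          refine h3 z ?_
          rw [hl]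
          rcases List.mem_append.1 hz with h | h
          · exact List.mem_append_left _ h
          · rw [List.mem_singleton.1 h]; simp
        · rw [← List.cons_append]
          exact List.getLast?_concat
    · refine ⟨l ++ [y'], ?_, ?_, ?_, ?_⟩
      · rw [← List.cons_append]
        refine List.isChain_append.2 ⟨h1, by simp, ?_⟩
        intro a ha b hb
        rw [h4] at ha
        have ha' : y = a := by simpa using ha
        have hb' : y' = b := by simpa using hb
        rw [← ha', ← hb']
        exact hyy.2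
      · rw [← List.cons_append, List.nodup_append]
        refine ⟨h2, by simp, ?_⟩
        intro a ha b hb hab
        rw [List.mem_singleton.1 hb] at hab
        exact hy (hab ▸ ha)
      · intro z hz
        rcases List.mem_append.1 hz with h | h
        · exact h3 z h
        · rw [List.mem_singleton.1 h]; exact hyy.1
      · rw [← List.cons_append]
        exact List.getLast?_concat

/-- a long chain of closed vertices -/
theorem far_chain (K : ℝ) (w : V d → ℝ) (x : V d) (k : ℕ) (h : Far K w x k) :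
    ∃ l ∈ pths ((k + 1) / 2) x, (x :: l).Nodup ∧ l.length = (k + 1) / 2 ∧
      ∀ z ∈ l, w z ∈ Set.Iio (-K) := by
  obtain ⟨y, ⟨x', hx', hr⟩, hk⟩ := h
  rw [Set.mem_singleton_iff.1 hx'] at hr
  obtain ⟨l, h1, h2, h3, h4⟩ := extract _ x y hr
  have h5 := chain_far l x y h1 h4
  have hlen : (k + 1) / 2 ≤ l.length := by omega
  have hpre : (x :: l.take ((k + 1) / 2)) <+: (x :: l) := by
    refine ⟨l.drop ((k + 1) / 2), ?_⟩
    rw [List.cons_append, List.take_append_drop]
  have htl : (l.take ((k + 1) / 2)).length = (k + 1) / 2 := by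
    rw [List.length_take]; omega
  refine ⟨l.take ((k + 1) / 2), ?_, h2.sublist hpre.sublist, htl, ?_⟩
  · have := mem_pths _ x (chain_pre h1 hpre)
    rwa [htl] at this
  · intro z hz
    exact h3 z (List.mem_of_mem_take hz)

theorem q_bound (ν : Measure ℝ) [IsProbabilityMeasure ν] (K : ℝ)
    (h : ν (Set.Iio (-K)) ≤ q0 d) :
    ((5 : ℝ≥0∞) ^ d) * ν (Set.Iio (-K)) ≤ ENNReal.ofReal (Real.exp (-8)) ∧
      ν (Set.Iio (-K)) ≤ ENNReal.ofReal (Real.exp (-8)) := by
  have h5 : (5 : ℝ≥0∞) ^ d = ENNReal.ofReal (5 ^ d) := by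
    rw [ENNReal.ofReal_pow (by norm_num)]
    norm_num
  constructor
  · calc ((5 : ℝ≥0∞) ^ d) * ν (Set.Iio (-K)) ≤ (5 : ℝ≥0∞) ^ d * q0 d := by gcongr
      _ = ENNReal.ofReal (Real.exp (-8)) := by
          rw [h5, q0, ← ENNReal.ofReal_mul (by positivity)]
          congr 1
          field_simp
  · refine h.trans ?_
    unfold q0
    refine ENNReal.ofReal_le_ofReal ?_
    refine div_le_self (Real.exp_pos _).le ?_
    exact one_le_pow₀ (by norm_num)

theorem tail : S_TAIL := by
  intro d ν _ K hq x k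
  classical
  obtain ⟨hq1, hq2⟩ := q_bound (d := d) ν K hq
  set q := ν (Set.Iio (-K)) with hqdef
  set m := (k + 1) / 2 with hm
  let P : Finset (List (V d)) := (pths m x).filter fun l => (x :: l).Nodup ∧ l.length = m
  have hPc : (P.card : ℝ≥0∞) ≤ ((5 : ℝ≥0∞) ^ d) ^ m := by
    have h1 : P.card ≤ (5 ^ d) ^ m := (Finset.card_filter_le _ _).trans (card_pths m x)
    calc (P.card : ℝ≥0∞) ≤ (((5 ^ d) ^ m : ℕ) : ℝ≥0∞) := by exact_mod_cast h1
      _ = ((5 : ℝ≥0∞) ^ d) ^ m := by push_cast; rfl
  have hexp : ENNReal.ofReal (Real.exp (-8)) ^ m ≤ ENNReal.ofReal (Real.exp (-(4 * k))) := by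
    rw [← ENNReal.ofReal_pow (Real.exp_pos _).le, ← Real.exp_nat_mul]
    refine ENNReal.ofReal_le_ofReal (Real.exp_le_exp.2 ?_)
    have h1 : k ≤ 2 * m := by omega
    have h2 : (k : ℝ) ≤ 2 * m := by exact_mod_cast h1
    linarith
  constructor
  · have hsub : {w : V d → ℝ | Far K w x k} ⊆ ⋃ l ∈ P, {w | ∀ z ∈ l, w z ∈ Set.Iio (-K)} := by
      intro w hw
      obtain ⟨l, h1, h2, h3, h4⟩ := far_chain K w x k hw
      exact Set.mem_biUnion (Finset.mem_filter.2 ⟨h1, h2, h3⟩) h4
    calc law ν d {w | Far K w x k} ≤ law ν d (⋃ l ∈ P, {w | ∀ z ∈ l, w z ∈ Set.Iio (-K)}) :=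
          measure_mono hsub
      _ ≤ ∑ l ∈ P, law ν d {w | ∀ z ∈ l, w z ∈ Set.Iio (-K)} := measure_biUnion_finset_le _ _
      _ = ∑ _l ∈ P, q ^ m := by
          refine Finset.sum_congr rfl fun l hl => ?_
          obtain ⟨_, h2, h3⟩ := Finset.mem_filter.1 hl
          rw [law_all ν l (List.nodup_cons.1 h2).2 _ measurableSet_Iio, h3]
      _ = P.card * q ^ m := by rw [Finset.sum_const, nsmul_eq_mul]
      _ ≤ ((5 : ℝ≥0∞) ^ d) ^ m * q ^ m := by gcongr
      _ = (((5 : ℝ≥0∞) ^ d) * q) ^ m := (mul_pow _ _ _).symm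
      _ ≤ ENNReal.ofReal (Real.exp (-8)) ^ m := by gcongr
      _ ≤ _ := hexp
  · have hsub : {w : V d → ℝ | x ∈ Cl K w ∧ Far K w x k} ⊆
        ⋃ l ∈ P, {w | ∀ z ∈ x :: l, w z ∈ Set.Iio (-K)} := by
      rintro w ⟨hx, hw⟩
      obtain ⟨l, h1, h2, h3, h4⟩ := far_chain K w x k hw
      refine Set.mem_biUnion (Finset.mem_filter.2 ⟨h1, h2, h3⟩) ?_
      intro z hz
      rcases List.mem_cons.1 hz with h | h
      · rw [h]; exact hx
      · exact h4 z h
    calc law ν d {w | x ∈ Cl K w ∧ Far K w x k}
        ≤ law ν d (⋃ l ∈ P, {w | ∀ z ∈ x :: l, w z ∈ Set.Iio (-K)}) := measure_mono hsub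
      _ ≤ ∑ l ∈ P, law ν d {w | ∀ z ∈ x :: l, w z ∈ Set.Iio (-K)} :=
          measure_biUnion_finset_le _ _
      _ = ∑ _l ∈ P, q ^ (m + 1) := by
          refine Finset.sum_congr rfl fun l hl => ?_
          obtain ⟨_, h2, h3⟩ := Finset.mem_filter.1 hl
          rw [law_all ν (x :: l) h2 _ measurableSet_Iio, List.length_cons, h3]
      _ = P.card * q ^ (m + 1) := by rw [Finset.sum_const, nsmul_eq_mul]
      _ ≤ ((5 : ℝ≥0∞) ^ d) ^ m * q ^ (m + 1) := by gcongr
      _ = (((5 : ℝ≥0∞) ^ d) * q) ^ m * q := by rw [mul_pow, pow_succ, mul_assoc]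
      _ ≤ ENNReal.ofReal (Real.exp (-8)) ^ m * ENNReal.ofReal (Real.exp (-8)) := by gcongr
      _ ≤ ENNReal.ofReal (Real.exp (-(4 * k))) * ENNReal.ofReal (Real.exp (-8)) := by gcongr
      _ = ENNReal.ofReal (Real.exp (-(4 * k) - 8)) := by
          rw [← ENNReal.ofReal_mul (Real.exp_pos _).le, ← Real.exp_add]
          congr 2

end Pool.Agent.W346.GP
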